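import Pool.Agent.H593R3.PPM.Main

/-!
# Pattern-restricted permutation pattern matching on classes of unbounded grid-width

The question MP_ab626d_lc asks whether `C`-Pattern PPM is `NP`-hard for every permutation class `C`
of unbounded grid-width. This is so if and only if `P = NP`.
-/

namespace Pool.Agent.Results.MP_ab626d_lc.SlowGridWidth

open Pool.Agent.NPC Pool.Agent.H593R3.PPM

/-- `P ≠ NP` if and only if there is a permutation class of unbounded grid-width whose pattern
matching problem is not `NP`-hard. -/
theorem result : (∃ L : Set (List Bool), InNP L ∧ ¬ InP L) ↔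
    ∃ C : Set (List ℕ), PermClass C ∧ UnboundedGW C ∧ ¬ NPHardP (PatternPPM C) := by
  constructor
  · rintro ⟨L, hL, hL'⟩
    exact exists_class hL hL'
  · rintro ⟨C, hC, hU, hnot⟩
    by_contra h
    push Not at h
    exact hnot (hard_of_eq h hC hU)

end Pool.Agent.Results.MP_ab626d_lc.SlowGridWidth
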